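import Mathlib
import Pool.Agent.Helper827.Chr.Core
set_option autoImplicit false

namespace Pool.Agent.Results.MP_cf191d_co.NeverTight

open Finset Chr827

universe u

/-- `F` is `H`-intersecting: the intersection of any two members (possibly equal) contains a
(not necessarily induced) copy of `H` -/
def IsIntersecting {V : Type u} (H : SimpleGraph V) {n : ℕ} (F : Finset (SimpleGraph (Fin n))) : Prop :=
  ∀ G₁ ∈ F, ∀ G₂ ∈ F, H.IsContained (G₁ ⊓ G₂)

/-- `M_H(n)`: the largest size of an `H`-intersecting family of graphs on `[n]` -/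
noncomputable def M {V : Type u} (H : SimpleGraph V) (n : ℕ) : ℕ :=
  sSup {k | ∃ F : Finset (SimpleGraph (Fin n)), IsIntersecting H F ∧ F.card = k}

open Classical in
/-- the 0/1 vector of a graph -/
noncomputable def code {n : ℕ} (G : SimpleGraph (Fin n)) : Ed n → Bool := fun p => decide (G.Adj p.1.1 p.1.2)

lemma code_iff {n : ℕ} (G : SimpleGraph (Fin n)) (p : Ed n) : code G p = true ↔ G.Adj p.1.1 p.1.2 := by
  unfold code; simp

lemma code_injective {n : ℕ} : Function.Injective (code : SimpleGraph (Fin n) → Ed n → Bool) := by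
  intro G H h
  ext a b
  rcases lt_trichotomy a b with hab | hab | hab
  · have := congrFun h ⟨(a, b), hab⟩
    rw [← code_iff G ⟨(a, b), hab⟩, this, code_iff H ⟨(a, b), hab⟩]
  · subst hab; simp
  · have := congrFun h ⟨(b, a), hab⟩
    rw [G.adj_comm, H.adj_comm, ← code_iff G ⟨(b, a), hab⟩, this, code_iff H ⟨(b, a), hab⟩]

lemma card_Ed (n : ℕ) : Fintype.card (Ed n) = n.choose 2 := by
  rw [Fintype.card_subtype]
  have h1 : (univ.filter fun p : Fin n × Fin n => p.1 < p.2).card = ∑ b : Fin n, (b : ℕ) := by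
    rw [Finset.card_eq_sum_card_fiberwise (f := fun p : Fin n × Fin n => p.2) (t := univ)
      (fun _ _ => Finset.mem_coe.2 (mem_univ _))]
    apply Finset.sum_congr rfl
    intro b _
    have : ((univ.filter fun p : Fin n × Fin n => p.1 < p.2).filter fun p => p.2 = b) =
        (Finset.Iio b).image (fun a => (a, b)) := by
      ext ⟨x, y⟩
      simp only [Finset.mem_filter, Finset.mem_univ, true_and, Finset.mem_image, Finset.mem_Iio,
        Prod.mk.injEq]
      constructor
      · rintro ⟨h1, rfl⟩; exact ⟨x, h1, rfl, rfl⟩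
      · rintro ⟨a, h1, rfl, rfl⟩; exact ⟨h1, rfl⟩
    rw [this, Finset.card_image_of_injective _ (fun a a' h => (Prod.mk.inj h).1), Fin.card_Iio]
  rw [h1, Fin.sum_univ_eq_sum_range (fun i => i) n, Finset.sum_range_id, Nat.choose_two_right]

/-- number of non-constant colourings making a pair monochromatic -/
lemma card_mono' {n r : ℕ} (a b : Fin n) (hab : a ≠ b) :
    (univ.filter fun c : {c : Fin n → Fin r // ∃ i j, c i ≠ c j} => c.1 a = c.1 b).card =
      r ^ (n - 1) - r := by
  have h1 : (univ.filter fun c : {c : Fin n → Fin r // ∃ i j, c i ≠ c j} => c.1 a = c.1 b).card =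
      ((univ.filter fun c : Fin n → Fin r => c a = c b) \
        (univ : Finset (Fin r)).image (fun k => fun _ => k)).card := by
    refine Finset.card_bij (fun c _ => c.1) ?_ ?_ ?_
    · intro c hc
      rw [Finset.mem_filter] at hc
      rw [Finset.mem_sdiff, Finset.mem_filter, Finset.mem_image]
      refine ⟨⟨Finset.mem_univ _, hc.2⟩, ?_⟩
      rintro ⟨k, -, hk⟩
      obtain ⟨i, j, hij⟩ := c.2
      apply hij
      rw [← hk]
    · intro c _ c' _ h
      exact Subtype.ext h
    · intro c hc
      rw [Finset.mem_sdiff, Finset.mem_filter, Finset.mem_image] at hc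
      refine ⟨⟨c, ?_⟩, ?_, rfl⟩
      · by_contra hcon
        push Not at hcon
        exact hc.2 ⟨c a, Finset.mem_univ _, funext fun j => hcon a j⟩
      · rw [Finset.mem_filter]
        exact ⟨Finset.mem_univ _, hc.1.2⟩
  rw [h1, Finset.card_sdiff_of_subset, card_mono n r a b hab, Finset.card_image_of_injective,
    Finset.card_univ, Fintype.card_fin]
  · intro k k' h
    exact congrFun h a
  · intro c hc
    obtain ⟨k, -, rfl⟩ := Finset.mem_image.1 hc
    rw [Finset.mem_filter]
    exact ⟨Finset.mem_univ _, rfl⟩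

/-- number of non-constant colourings -/
lemma card_nonconst {n r : ℕ} (hn : 1 ≤ n) :
    Fintype.card {c : Fin n → Fin r // ∃ i j, c i ≠ c j} = r ^ n - r := by
  have h1 : Fintype.card {c : Fin n → Fin r // ∃ i j, c i ≠ c j} =
      ((univ : Finset (Fin n → Fin r)) \ (univ : Finset (Fin r)).image (fun k => fun _ => k)).card := by
    rw [Fintype.card_subtype]
    congr 1
    ext c
    rw [Finset.mem_filter, Finset.mem_sdiff, Finset.mem_image]
    constructor
    · rintro ⟨h, i, j, hij⟩
      refine ⟨h, ?_⟩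
      rintro ⟨k, -, rfl⟩
      exact hij rfl
    · rintro ⟨h, h2⟩
      refine ⟨h, ?_⟩
      by_contra hcon
      push Not at hcon
      exact h2 ⟨c ⟨0, hn⟩, Finset.mem_univ _, funext fun j => hcon ⟨0, hn⟩ j⟩
  rw [h1, Finset.card_sdiff_of_subset (Finset.subset_univ _), Finset.card_image_of_injective,
    Finset.card_univ, Finset.card_univ, Fintype.card_fun, Fintype.card_fin, Fintype.card_fin]
  intro k k' h
  exact congrFun h ⟨0, hn⟩

/-- if every trace has density at most `1/2` then the family is smaller than `2 ^ (N - r)` -/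
lemma shearer_strict {n r : ℕ} (hn : 3 ≤ n) (hr : 2 ≤ r) (F : Finset (Ed n → Bool))
    (h : ∀ c : Fin n → Fin r, m (ind (sh c F)) ≤ 1 / 2) :
    m (ind F) < (1 / 2) ^ r := by
  set J := {c : Fin n → Fin r // ∃ i j, c i ≠ c j} with hJ
  set k := r ^ (n - 1) - r with hk
  have hrk : r < r ^ (n - 1) := by
    calc r = r ^ 1 := (pow_one r).symm
      _ < r ^ (n - 1) := Nat.pow_lt_pow_right (by omega) (by omega)
  have hk1 : 1 ≤ k := by omega
  have hcount : ∀ p : Ed n, (univ.filter fun c : J => p ∈ U c.1).card = k := by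
    intro p
    rw [hk, ← card_mono' (r := r) p.1.1 p.1.2 (ne_of_lt p.2)]
    congr 1
    ext c
    simp [mem_U]
  have hle : m (ind F) ≤ ∏ c : J, (m (ind (sh c.1 F))) ^ (1 / ((k : ℕ):ℝ)) := by
    refine le_trans (m_mono fun x => ?_)
      (finner (fun c : J => U c.1) (fun c => ind (sh c.1 F)) (fun c x => ind_nonneg _ x)
        (fun c => dep_sh c.1 F) k hk1 hcount)
    by_cases hx : x ∈ F
    · have : ∀ c : J, ind (sh c.1 F) x = 1 := by
        intro c
        unfold ind
        rw [if_pos (mem_sh.2 ⟨x, hx, fun _ _ => rfl⟩)]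
      simp [ind, hx, mem_sh.2 ⟨x, hx, fun _ _ => rfl⟩]
    · have h0 : ind F x = 0 := by unfold ind; rw [if_neg hx]
      rw [h0]
      exact Finset.prod_nonneg fun c _ => Real.rpow_nonneg (ind_nonneg _ _) _
  have h2 : ∏ c : J, (m (ind (sh c.1 F))) ^ (1 / ((k : ℕ):ℝ)) ≤
      ∏ c : J, (1 / 2 : ℝ) ^ (1 / ((k : ℕ):ℝ)) := by
    apply Finset.prod_le_prod
    · intro c _
      exact Real.rpow_nonneg (m_nonneg (ind_nonneg _)) _
    · intro c _
      exact Real.rpow_le_rpow (m_nonneg (ind_nonneg _)) (h c.1) (by positivity)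
  refine (hle.trans h2).trans_lt ?_
  have hJc : Fintype.card J = r ^ n - r := card_nonconst (by omega)
  rw [Finset.prod_const, Finset.card_univ, hJc, ← Real.rpow_natCast,
    ← Real.rpow_mul (by norm_num), ← Real.rpow_natCast]
  apply Real.rpow_lt_rpow_of_exponent_gt (by norm_num) (by norm_num)
  have hk0 : (0:ℝ) < k := by exact_mod_cast hk1
  rw [one_div, ← div_eq_inv_mul, lt_div_iff₀ hk0]
  have h3 : r * k < r ^ n - r := by
    have e1 : r * r ^ (n - 1) = r ^ n := by
      rw [← pow_succ']
      congr 1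
      omega
    have e2 : r * k = r ^ n - r * r := by
      rw [hk, Nat.mul_sub, e1]
    rw [e2]
    have e3 : r * r < r ^ n := by
      rw [← e1]
      exact Nat.mul_lt_mul_of_pos_left hrk (by omega)
    have e4 : r < r * r := by nlinarith
    omega
  exact_mod_cast h3

/-- an intersecting family in the cube has density at most `1/2` -/
lemma half {n : ℕ} (S : Finset (Ed n → Bool)) (hint : ∀ x ∈ S, ∀ y ∈ S, ∃ p, x p = true ∧ y p = true) :
    m (ind S) ≤ 1 / 2 := by
  have hsum : m (ind S) + m (ind S) ≤ 1 := by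
    rw [m_ind, ← add_div, div_le_one (by positivity)]
    let e : (Ed n → Bool) → (Ed n → Bool) := fun x p => !(x p)
    have he : Function.Injective e := by
      intro x y hxy
      funext p
      have := congrFun hxy p
      simp only [e] at this
      exact Bool.not_inj this
    have hdisj : Disjoint (S.image e) S := by
      rw [Finset.disjoint_left]
      intro y hy hy'
      obtain ⟨x, hx, rfl⟩ := Finset.mem_image.1 hy
      obtain ⟨p, hp1, hp2⟩ := hint x hx _ hy'
      simp only [e, hp1, Bool.not_true] at hp2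
      exact Bool.false_ne_true hp2
    have hc := Finset.card_union_of_disjoint hdisj
    rw [Finset.card_image_of_injective _ he] at hc
    have hle := Finset.card_le_univ (S.image e ∪ S)
    rw [hc, Fintype.card_fun, Fintype.card_bool] at hle
    exact_mod_cast hle
  linarith

/-- families with non-`r`-colourable intersections, `r ≥ 2` -/
theorem strict_chi {n r : ℕ} (hn : 3 ≤ n) (hr : 2 ≤ r) (F : Finset (SimpleGraph (Fin n)))
    (hF : ∀ G₁ ∈ F, ∀ G₂ ∈ F, ¬ (G₁ ⊓ G₂).Colorable r) :
    F.card * 2 ^ r < 2 ^ (n.choose 2) := by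
  classical
  set F' : Finset (Ed n → Bool) := F.image code with hF'
  have hc : F'.card = F.card := Finset.card_image_of_injective _ code_injective
  have h := shearer_strict hn hr F' (fun c => half _ (by
    intro x hx y hy
    obtain ⟨x', hx', hxx⟩ := mem_sh.1 hx
    obtain ⟨y', hy', hyy⟩ := mem_sh.1 hy
    obtain ⟨G₁, hG₁, rfl⟩ := Finset.mem_image.1 hx'
    obtain ⟨G₂, hG₂, rfl⟩ := Finset.mem_image.1 hy'
    by_contra hcon
    push Not at hcon
    apply hF G₁ hG₁ G₂ hG₂
    have key : ∀ a b : Fin n, a < b → (G₁ ⊓ G₂).Adj a b → c a ≠ c b := by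
      intro a b hab hadj hcc
      rw [SimpleGraph.inf_adj] at hadj
      have hU : (⟨(a, b), hab⟩ : Ed n) ∈ U c := mem_U.2 hcc
      apply hcon ⟨(a, b), hab⟩
      · rw [hxx _ hU, code_iff]; exact hadj.1
      · rw [hyy _ hU, code_iff]; exact hadj.2
    refine ⟨SimpleGraph.Coloring.mk c ?_⟩
    intro a b hadj
    rcases lt_trichotomy a b with h1 | h1 | h1
    · exact key a b h1 hadj
    · exact absurd h1 hadj.ne
    · exact (key b a h1 hadj.symm).symm))
  rw [m_ind, hc, card_Ed, div_lt_iff₀ (by positivity), one_div, inv_pow, ← div_eq_inv_mul,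
    lt_div_iff₀ (by positivity)] at h
  exact_mod_cast h

lemma edges_le {V : Type u} [Fintype V] {H : SimpleGraph V} {n : ℕ} {G : SimpleGraph (Fin n)}
    (h : H.IsContained G) (S : Set (Sym2 (Fin n))) (hS : G.edgeSet ⊆ S) : H.edgeSet.ncard ≤ S.ncard := by
  obtain ⟨f⟩ := h
  exact Set.ncard_le_ncard_of_injOn (Sym2.map f) (by
    intro e he
    apply hS
    induction e with
    | _ a b =>
      rw [SimpleGraph.mem_edgeSet] at he
      rw [Sym2.map_mk, SimpleGraph.mem_edgeSet]
      exact f.toHom.map_adj he) (Sym2.map.injective f.injective).injOn (Set.toFinite _)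

/-- families whose intersections have at least two edges -/
theorem strict_two {V : Type u} [Fintype V] {H : SimpleGraph V} (hH : 2 ≤ H.edgeSet.ncard) {n : ℕ}
    (F : Finset (SimpleGraph (Fin n))) (hF : IsIntersecting H F) :
    F.card * 2 < 2 ^ (n.choose 2) := by
  classical
  have hcard : Fintype.card (SimpleGraph (Fin n)) ≤ 2 ^ (n.choose 2) := by
    have := Fintype.card_le_of_injective (code : SimpleGraph (Fin n) → Ed n → Bool) code_injective
    rwa [Fintype.card_fun, Fintype.card_bool, card_Ed] at this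
  have hinj : Function.Injective (fun G : SimpleGraph (Fin n) => Gᶜ) := compl_injective
  have hdisj : Disjoint F (F.image (fun G => Gᶜ)) := by
    rw [Finset.disjoint_left]
    intro G hG hG'
    obtain ⟨G₂, hG₂, rfl⟩ := Finset.mem_image.1 hG'
    have h1 := hF _ hG _ hG₂
    rw [compl_inf_self] at h1
    have h2 := edges_le h1 ∅ (by simp)
    simp at h2
    omega
  have hc : (F ∪ F.image (fun G => Gᶜ)).card = F.card + F.card := by
    rw [Finset.card_union_of_disjoint hdisj, Finset.card_image_of_injective _ hinj]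
  have hle : F.card * 2 ≤ 2 ^ (n.choose 2) := by
    have := (Finset.card_le_univ (F ∪ F.image (fun G => Gᶜ))).trans hcard
    omega
  refine lt_of_le_of_ne hle fun heq => ?_
  -- equality: exactly one of every complementary pair is in `F`
  have huniv : F ∪ F.image (fun G => Gᶜ) = univ := by
    apply Finset.eq_univ_of_card
    have := Finset.card_le_univ (F ∪ F.image (fun G => Gᶜ))
    omega
  have hne : F.Nonempty := by
    rw [Finset.nonempty_iff_ne_empty]
    rintro rfl
    have := Nat.two_pow_pos (n.choose 2)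
    simp only [Finset.card_empty, zero_mul] at heq
    omega
  obtain ⟨G, hG, hmin⟩ := Finset.exists_min_image F (fun G => G.edgeSet.ncard) hne
  have hGne : G.edgeSet.Nonempty := by
    have h1 := hF G hG G hG
    rw [inf_idem] at h1
    have h2 := edges_le h1 G.edgeSet subset_rfl
    exact Set.nonempty_of_ncard_ne_zero (by omega)
  obtain ⟨e, he⟩ := hGne
  have h3 : G.deleteEdges {e} ∉ F := by
    intro hmem
    have h4 := hmin _ hmem
    rw [SimpleGraph.edgeSet_deleteEdges, Set.ncard_sdiff_singleton_of_mem he] at h4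
    have h5 : 0 < G.edgeSet.ncard := (Set.ncard_pos (Set.toFinite _)).2 ⟨e, he⟩
    omega
  have h4 : G.deleteEdges {e} ∈ F.image (fun G => Gᶜ) := by
    have := Finset.mem_univ (G.deleteEdges {e})
    rw [← huniv, Finset.mem_union] at this
    exact this.resolve_left h3
  obtain ⟨G₂, hG₂, hGe⟩ := Finset.mem_image.1 h4
  have h5 := edges_le (hF G hG G₂ hG₂) {e} (by
    intro e' he'
    rw [SimpleGraph.edgeSet_inf] at he'
    by_contra hcon
    have h6 : e' ∈ (G.deleteEdges {e}).edgeSet := by
      rw [SimpleGraph.edgeSet_deleteEdges]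
      exact ⟨he'.1, hcon⟩
    rw [← hGe] at h6
    have h7 := he'.2
    induction e' with
    | _ a b =>
      rw [SimpleGraph.mem_edgeSet] at h6 h7
      exact (SimpleGraph.compl_adj _ _ _ |>.1 h6).2 h7)
  rw [Set.ncard_singleton] at h5
  omega

theorem main {V : Type u} [Fintype V] {H : SimpleGraph V} (hH : 2 ≤ H.edgeSet.ncard) {n : ℕ}
    (F : Finset (SimpleGraph (Fin n))) (hF : IsIntersecting H F) :
    F.card * 2 ^ (H.chromaticNumber.toNat - 1) < 2 ^ (n.choose 2) := by
  classical
  rcases F.eq_empty_or_nonempty with rfl | hne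
  · simp
  rcases le_or_gt H.chromaticNumber.toNat 2 with hle | hgt
  · calc F.card * 2 ^ (H.chromaticNumber.toNat - 1) ≤ F.card * 2 ^ 1 :=
          Nat.mul_le_mul_left _ (Nat.pow_le_pow_right (by norm_num) (by omega))
      _ = F.card * 2 := by rw [pow_one]
      _ < 2 ^ (n.choose 2) := strict_two hH F hF
  · set r := H.chromaticNumber.toNat - 1 with hr
    have hnc : ¬ H.Colorable r := by
      intro hcol
      have h1 := hcol.chromaticNumber_le
      have h2 : H.chromaticNumber.toNat ≤ r := by
        have := ENat.toNat_le_toNat h1 (ENat.natCast_ne_top _)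
        simpa using this
      omega
    have hF' : ∀ G₁ ∈ F, ∀ G₂ ∈ F, ¬ (G₁ ⊓ G₂).Colorable r := by
      intro G₁ hG₁ G₂ hG₂ hcol
      obtain ⟨f⟩ := hF G₁ hG₁ G₂ hG₂
      exact hnc (hcol.of_hom f.toHom)
    apply strict_chi _ (by omega) F hF'
    -- `n ≥ 3`
    by_contra hn
    obtain ⟨G, hG⟩ := hne
    apply hF' G hG G hG
    have h1 : (G ⊓ G).Colorable (Fintype.card (Fin n)) := SimpleGraph.colorable_of_fintype _
    rw [Fintype.card_fin] at h1
    exact h1.mono (by omega)

/-- `M_H(n)` is attained -/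
lemma isGreatest {V : Type u} (H : SimpleGraph V) (n : ℕ) :
    IsGreatest {k | ∃ F : Finset (SimpleGraph (Fin n)), IsIntersecting H F ∧ F.card = k} (M H n) := by
  classical
  have hb : BddAbove {k | ∃ F : Finset (SimpleGraph (Fin n)), IsIntersecting H F ∧ F.card = k} := by
    refine ⟨Fintype.card (SimpleGraph (Fin n)), ?_⟩
    rintro k ⟨F, -, rfl⟩
    exact Finset.card_le_univ F
  refine ⟨Nat.sSup_mem ⟨0, ∅, ?_, rfl⟩ hb, fun k hk => le_csSup hb hk⟩
  intro G hG
  simp at hG

theorem result : ∀ (V : Type u) [Fintype V] (H : SimpleGraph V), 2 ≤ H.edgeSet.ncard → ∀ n : ℕ,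
    IsGreatest {k | ∃ F : Finset (SimpleGraph (Fin n)), IsIntersecting H F ∧ F.card = k} (M H n) ∧
    ∃ χ : ℕ, H.chromaticNumber = χ ∧ (M H n : ℝ) < (2:ℝ) ^ ((n.choose 2 : ℤ) - ((χ : ℤ) - 1)) := by
  intro V _ H hH n
  refine ⟨isGreatest H n, H.chromaticNumber.toNat, ?_, ?_⟩
  · have : H.chromaticNumber ≠ ⊤ := by
      exact SimpleGraph.chromaticNumber_ne_top_iff_exists.2 ⟨_, SimpleGraph.colorable_of_fintype H⟩
    exact (ENat.natCast_toNat this).symm
  · obtain ⟨F, hF, hFc⟩ := (isGreatest H n).1
    have h1 := main hH F hF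
    rw [hFc] at h1
    have hpos : 1 ≤ H.chromaticNumber.toNat := by
      by_contra hcon
      have h0 : H.chromaticNumber.toNat = 0 := by omega
      have hne : H.chromaticNumber ≠ ⊤ :=
        SimpleGraph.chromaticNumber_ne_top_iff_exists.2 ⟨_, SimpleGraph.colorable_of_fintype H⟩
      have h2 : H.chromaticNumber = 0 := by
        rw [← ENat.natCast_toNat hne, h0]; rfl
      have h3 : H.Colorable 0 := by
        rw [← SimpleGraph.chromaticNumber_le_iff_colorable, h2]; simp
      have h4 : IsEmpty V := by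
        obtain ⟨c⟩ := h3
        exact ⟨fun v => (c v).elim0⟩
      have h5 : H.edgeSet = ∅ := by
        ext e
        induction e with
        | _ a b => exact h4.elim a
      rw [h5] at hH
      simp at hH
    set c := H.chromaticNumber.toNat with hcdef
    have e1 : (2:ℝ) ^ ((n.choose 2 : ℤ) - ((c : ℤ) - 1)) = 2 ^ (n.choose 2) / 2 ^ (c - 1) := by
      have : ((c : ℤ) - 1) = ((c - 1 : ℕ) : ℤ) := by omega
      rw [this, zpow_sub₀ (by norm_num), zpow_natCast, zpow_natCast]
    rw [e1, lt_div_iff₀ (by positivity)]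
    exact_mod_cast h1

end Pool.Agent.Results.MP_cf191d_co.NeverTight
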